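import Pool.Agent.Helper43.Hw.Goals

/-! Packet H10a: starts and pending skips. -/

set_option autoImplicit false

namespace Pool.Agent.Helper43.Hw.PkH10a

open Finset
open Pool.Agent.Helper43.Hw
open Pool.Agent.Helper43.Gm (st mv nn Run Pri)

theorem part1 (h6 : GoalH6) (h8 : GoalH8) {μ R N l L y : ℕ} {κ x : ℕ → ℕ}
    (hz : Zon μ R N l L κ x y) :
    ∀ z ≤ y, R ≤ z + 1 + μ → l * (κ y - κ z) ≤ 2 * l + 151 * (R - 1 - z) := by
  intro z hzy hR
  have hμ := hz.μ1
  have hl := hz.l1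
  have hbig := hz.big
  have hy2 := hz.y2
  rcases hzy.eq_or_lt with rfl | hlt
  · rw [Nat.sub_self, Nat.mul_zero]
    exact Nat.zero_le _
  have hp := hz.play
  have hex := hz.ex
  have hnp := (h6 μ R N κ x y hμ (by omega) hp hex).2.2.2.2 hz.zo (by omega) (R - 1 - z) (by omega)
  have hih := hz.ih z hlt hR
  have hoo : N - 1 - κ z ≤ oo μ R κ x z := by
    have h1 : 24 * l * (N - 1 - κ z) ≤ 24 * l * oo μ R κ x z := by omega
    exact Nat.le_of_mul_le_mul_left h1 (by omega)
  have h := h8 μ R N κ x y z hμ (by omega) hp hex hy2 hzy hR hoo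
  set X := R - 1 - z with hX
  set w := R - 1 - y with hw
  have hwX : w ≤ X := by omega
  have hw1 : 1 ≤ w := by omega
  set P := np μ R N κ x X with hP
  -- `l np X ≤ 3 l + 300 X`
  have hlP : l * P ≤ 3 * l + 300 * X := by
    have h1 : l * R ≤ 60 * μ ^ 2 := hz.hi
    have h2 : μ ^ 2 * (l * P) ≤ μ ^ 2 * (3 * l + 300 * X) := by
      calc μ ^ 2 * (l * P) = l * (μ ^ 2 * P) := by ring
        _ ≤ l * (3 * μ ^ 2 + 5 * X * R) := Nat.mul_le_mul_left l hnp
        _ = 3 * l * μ ^ 2 + 5 * X * (l * R) := by ring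
        _ ≤ 3 * l * μ ^ 2 + 5 * X * (60 * μ ^ 2) :=
            Nat.add_le_add_left (Nat.mul_le_mul_left _ h1) _
        _ = μ ^ 2 * (3 * l + 300 * X) := by ring
    exact Nat.le_of_mul_le_mul_left h2 (by positivity)
  -- `48 l W⁺ ≤ w ^ 3`
  set Wp := T R - N * T μ with hWp
  have hW : 48 * l * Wp ≤ w ^ 3 := by
    have h1 := hz.w3
    have h2 : ((Wp : ℕ) : ℤ) ≤ |(T R : ℤ) - N * T μ| := by
      rcases Nat.le_total (N * T μ) (T R) with h3 | h3
      · rw [hWp, Nat.cast_sub h3]
        push_cast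
        exact le_abs_self _
      · rw [hWp, Nat.sub_eq_zero_of_le h3]
        simp
    have h3 : (48 : ℤ) * l * (Wp : ℤ) ≤ ((w : ℕ) : ℤ) ^ 3 :=
      le_trans (mul_le_mul_of_nonneg_left h2 (by positivity)) h1
    exact_mod_cast h3
  have hT2 : 2 * T w = w * (w + 1) := two_T w
  have hTw : 0 < T w := by nlinarith
  have hT3 : w ^ 3 ≤ X * (2 * T w) := by
    rw [hT2]
    calc w ^ 3 = w * (w * w) := by ring
      _ ≤ X * (w * (w + 1)) := Nat.mul_le_mul hwX (Nat.mul_le_mul_left _ (by omega))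
  have hlW : l * Wp ≤ X * T w := by
    have h1 : 48 * l * Wp ≤ X * (2 * T w) := hW.trans hT3
    nlinarith
  have key : T w * (2 * (l * (κ y - κ z))) ≤ T w * (3 * l + 301 * X) := by
    calc T w * (2 * (l * (κ y - κ z))) = l * (2 * T w * (κ y - κ z)) := by ring
      _ ≤ l * (T w * P + Wp) := Nat.mul_le_mul_left l h
      _ = T w * (l * P) + l * Wp := by ring
      _ ≤ T w * (3 * l + 300 * X) + X * T w :=
          Nat.add_le_add (Nat.mul_le_mul_left _ hlP) hlW
      _ = T w * (3 * l + 301 * X) := by ring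
  have key2 := Nat.le_of_mul_le_mul_left key hTw
  omega

theorem goalH10a (_h1 : GoalH1) (h6 : GoalH6) (h8 : GoalH8) (h9 : GoalH9) : GoalH10a := by
  intro μ R N l L y κ x hz
  have hp1 := part1 h6 h8 hz
  have hμ := hz.μ1
  have hl := hz.l1
  have hbig := hz.big
  have hy2 := hz.y2
  have hzo := hz.zo
  have hL := hz.hL
  have hw1 := hz.w1
  have hw2 := hz.w2
  -- the second statement
  have hJ := hp1 (R - 1 - μ) (by omega) (by omega)
  have hRJ : R - 1 - (R - 1 - μ) = μ := by omega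
  rw [hRJ] at hJ
  have hlt : κ y - κ (R - 1 - μ) < 2 ^ L := by
    have h1 : l * (κ y - κ (R - 1 - μ)) < l * 2 ^ L := by
      rw [Nat.mul_comm l (2 ^ L)]
      omega
    exact Nat.lt_of_mul_lt_mul_left h1
  have hq := h9 μ R N κ x l L y hμ (by omega) hl hz.play hz.ex hzo hy2 hz.ih hp1 hlt
  set q := ((range y).filter (fun t => R - 1 - μ < t ∧ κ t < κ y ∧ 0 < x t ∧ 0 < U μ R x t ∧
    U μ R x t ≤ R - 1 - y)).card with hqdef
  have hp2 : l * q ≤ 151 * μ + 2 * l + 48 * l ^ 2 + 3624 * l * (R - 1 - y) * L := by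
    calc l * q ≤ l * ((κ y - κ (R - 1 - μ)) + 48 * l + 3624 * (R - 1 - y) * L) :=
          Nat.mul_le_mul_left l hq
      _ = l * (κ y - κ (R - 1 - μ)) + 48 * l ^ 2 + 3624 * l * (R - 1 - y) * L := by ring
      _ ≤ (2 * l + 151 * μ) + 48 * l ^ 2 + 3624 * l * (R - 1 - y) * L := by omega
      _ = _ := by ring
  refine ⟨hp1, hp2, ?_⟩
  set w := R - 1 - y with hw
  -- the sum
  have hSd : Sd μ R κ x y ≤ w * (w + q) := by
    have e1 : Sd μ R κ x y = ∑ t ∈ ((range y).filter (fun t => κ t < κ y ∧ 0 < x t ∧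
        U μ R x t ≤ R - 1 - y)).filter (fun t => 0 < U μ R x t), U μ R x t := by
      unfold Sd
      exact (Finset.sum_filter_of_ne fun t _ ht => Nat.pos_of_ne_zero ht).symm
    have e2 : Sd μ R κ x y ≤ (((range y).filter (fun t => κ t < κ y ∧ 0 < x t ∧
        U μ R x t ≤ R - 1 - y)).filter (fun t => 0 < U μ R x t)).card * w := by
      rw [e1, ← smul_eq_mul]
      refine Finset.sum_le_card_nsmul _ _ _ fun t ht => ?_
      simp only [mem_filter] at ht
      exact ht.1.2.2.2
    have e3 : ((range y).filter (fun t => κ t < κ y ∧ 0 < x t ∧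
        U μ R x t ≤ R - 1 - y)).filter (fun t => 0 < U μ R x t) ⊆
        Ioc (R - 1 - μ - w) (R - 1 - μ) ∪ (range y).filter (fun t => R - 1 - μ < t ∧ κ t < κ y ∧
          0 < x t ∧ 0 < U μ R x t ∧ U μ R x t ≤ R - 1 - y) := by
      intro t ht
      simp only [mem_filter, mem_range, mem_union, mem_Ioc] at ht ⊢
      obtain ⟨⟨t1, t2, t3, t4⟩, t5⟩ := ht
      by_cases htJ : R - 1 - μ < t
      · right
        exact ⟨t1, htJ, t2, t3, t5, t4⟩
      · left
        unfold U at t4 t5
        omega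
    have e4 := (Finset.card_le_card e3).trans (Finset.card_union_le _ _)
    rw [Nat.card_Ioc] at e4
    have e5 : R - 1 - μ - (R - 1 - μ - w) ≤ w := by omega
    have e6 : (((range y).filter (fun t => κ t < κ y ∧ 0 < x t ∧
        U μ R x t ≤ R - 1 - y)).filter (fun t => 0 < U μ R x t)).card ≤ w + q := by omega
    calc Sd μ R κ x y ≤ _ := e2
      _ ≤ (w + q) * w := Nat.mul_le_mul_right w e6
      _ = w * (w + q) := Nat.mul_comm _ _
  have hL1 : 1 ≤ L := by
    by_contra hcon
    have h0 : L = 0 := by omega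
    rw [h0, pow_zero, one_mul] at hL
    omega
  have hbound : 96 * (l * (w + q)) ≤ w ^ 2 := by
    have a1 : l ≤ l * L := Nat.le_mul_of_pos_right l hL1
    set a := l * L with ha
    have a2 : 1500000 * a ≤ w := by
      rw [ha]
      calc 1500000 * (l * L) = 1500000 * l * L := by ring
        _ ≤ w := hw1
    have a3 : 1500000 * l ≤ w := by omega
    have a4 : 1500000 * (l * w) ≤ w ^ 2 := by
      calc 1500000 * (l * w) = (1500000 * l) * w := by ring
        _ ≤ w * w := Nat.mul_le_mul_right w a3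
        _ = w ^ 2 := by ring
    have a5 : 1500000 * (a * w) ≤ w ^ 2 := by
      calc 1500000 * (a * w) = (1500000 * a) * w := by ring
        _ ≤ w * w := Nat.mul_le_mul_right w a2
        _ = w ^ 2 := by ring
    have a6 : l ^ 2 ≤ l * w := by
      rw [pow_two]
      exact Nat.mul_le_mul_left l (by omega)
    have a7 : l ≤ l * w := Nat.le_mul_of_pos_right l (by omega)
    have a8 : 3624 * l * w * L = 3624 * (a * w) := by
      rw [ha]
      ring
    rw [a8] at hp2
    have a9 : l * (w + q) = l * w + l * q := by ring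
    rw [a9]
    omega
  calc 96 * l * Sd μ R κ x y ≤ 96 * l * (w * (w + q)) := Nat.mul_le_mul_left _ hSd
    _ = w * (96 * (l * (w + q))) := by ring
    _ ≤ w * w ^ 2 := Nat.mul_le_mul_left w hbound
    _ = w ^ 3 := by ring

end Pool.Agent.Helper43.Hw.PkH10a
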